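import Pool.Agent.helper87.AU.SpecQ2

namespace Pool.Agent.helper53.AU

open scoped Classical

theorem QF7_step (hQF4 : QF4_stmt) (hQF5 : QF5_stmt) (k F : Type) [Field k] [IsAlgClosed k]
    [CharP k 3] [Field F] [Algebra k F] (hF : IsFF k F) (P : Place k F) (s : F ≃ₐ[k] F)
    (hs : s • P = P) (h1 : s ≠ 1) (hj : 1 ≤ P.jump s) :
    s ^ 3 = 1 ∨ P.jump s < P.jump (s ^ 3) := by
  obtain ⟨ha, -, -⟩ := hQF4 k F hF P s hs h1 hj
  have h3 : (3 : k) = 0 := by
    have := CharP.cast_eq_zero k 3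
    exact_mod_cast this
  have hA := ((hQF5 k F hF P).1 s s hs hs h1 h1 hj rfl).2
  have hne : P.lcoef s + P.lcoef s ≠ 0 := by
    intro h
    apply ha
    have h4 : (3 : k) * P.lcoef s = P.lcoef s + (P.lcoef s + P.lcoef s) := by ring
    rw [h, h3, zero_mul, add_zero] at h4
    exact h4.symm
  obtain ⟨hss1, hssj, hssl⟩ := hA hne
  have hssP : (s * s) • P = P := by rw [mul_smul, hs, hs]
  have hB := ((hQF5 k F hF P).1 (s * s) s hssP hs hss1 h1 (by rw [hssj]; exact hj) hssj.symm).1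
  have hsum : P.lcoef (s * s) + P.lcoef s = 0 := by
    rw [hssl]
    have h4 : P.lcoef s + P.lcoef s + P.lcoef s = (3 : k) * P.lcoef s := by ring
    rw [h4, h3, zero_mul]
  have h5 := hB hsum
  have h6 : s ^ 3 = s * s * s := by
    rw [pow_succ, pow_two]
  rw [h6, ← hssj]
  exact h5

theorem QF7_fix {k F : Type} [Field k] [Field F] [Algebra k F] {P : Place k F}
    {s : F ≃ₐ[k] F} (hs : s • P = P) (n : ℕ) : s ^ n • P = P := by
  induction n with
  | zero => simp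
  | succ n ih => rw [pow_succ, mul_smul, hs, ih]

theorem QF7_iter (hQF4 : QF4_stmt) (hQF5 : QF5_stmt) (k F : Type) [Field k] [IsAlgClosed k]
    [CharP k 3] [Field F] [Algebra k F] (hF : IsFF k F) (P : Place k F) (s : F ≃ₐ[k] F)
    (hs : s • P = P) (h1 : s ≠ 1) (hj : 1 ≤ P.jump s) (n : ℕ) :
    s ^ (3 ^ n) = 1 ∨ (s ^ (3 ^ n) ≠ 1 ∧ 1 ≤ P.jump (s ^ (3 ^ n))) := by
  induction n with
  | zero =>
    right
    rw [pow_zero, pow_one]
    exact ⟨h1, hj⟩
  | succ n ih =>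
    have h2 : s ^ (3 ^ (n + 1)) = (s ^ (3 ^ n)) ^ 3 := by
      rw [← pow_mul, ← pow_succ]
    rcases ih with ih | ih
    · left
      rw [h2, ih, one_pow]
    · rcases QF7_step hQF4 hQF5 k F hF P (s ^ (3 ^ n)) (QF7_fix hs _) ih.1 ih.2 with h3 | h3
      · left
        rw [h2, h3]
      · by_cases h4 : s ^ (3 ^ (n + 1)) = 1
        · exact Or.inl h4
        · right
          refine ⟨h4, ?_⟩
          rw [h2]
          have := ih.2
          omega

theorem QF7_lin (hQF4 : QF4_stmt) (k F : Type) [Field k] [IsAlgClosed k]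
    [Field F] [Algebra k F] (hF : IsFF k F) (P : Place k F) (s : F ≃ₐ[k] F)
    (hs : s • P = P) (h1 : s ≠ 1) (hj : 1 ≤ P.jump s) (n : ℕ) :
    P.Ge ((P.jump s : ℤ) + 2)
      ((s ^ n) P.unif - P.unif - algebraMap k F ((n : k) * P.lcoef s) * P.unif ^ (P.jump s + 1)) := by
  obtain ⟨-, -, hlin⟩ := hQF4 k F hF P s hs h1 hj
  induction n with
  | zero =>
    left
    simp
  | succ n ih =>
    have hu := P.unif_spec
    have h2 : P.Ge 2 ((s ^ n) P.unif - P.unif) := by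
      have h3 : P.Ge 2 (algebraMap k F ((n : k) * P.lcoef s) * P.unif ^ (P.jump s + 1)) := by
        have h4 : P.Ge (((P.jump s + 1 : ℕ) : ℤ) * 1) (P.unif ^ (P.jump s + 1)) :=
          Place.Ge.pow (Or.inr hu.2.ge) _
        refine Place.Ge.const_mul _ (h4.mono ?_)
        push_cast
        omega
      have h4 := (ih.mono (show (2 : ℤ) ≤ (P.jump s : ℤ) + 2 by omega)).add h3
      have h5 : (s ^ n) P.unif - P.unif - algebraMap k F ((n : k) * P.lcoef s) *
          P.unif ^ (P.jump s + 1) + algebraMap k F ((n : k) * P.lcoef s) *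
          P.unif ^ (P.jump s + 1) = (s ^ n) P.unif - P.unif := by ring
      rwa [h5] at h4
    have h3 := hlin 1 1 ((s ^ n) P.unif) (by
      rw [map_one, one_mul, zpow_one]
      exact h2)
    have h4 : (s ^ (n + 1)) P.unif = s ((s ^ n) P.unif) := by
      rw [pow_succ']
      rfl
    rw [h4]
    have h5 := ih.add (h3.mono (show (P.jump s : ℤ) + 2 ≤ 1 + (P.jump s : ℤ) + 1 by omega))
    have h6 : P.unif ^ ((1 : ℤ) + (P.jump s : ℤ)) = P.unif ^ (P.jump s + 1) := by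
      rw [← zpow_natCast]
      congr 1
      push_cast
      ring
    rw [h6] at h5
    have h7 : (s ^ n) P.unif - P.unif - algebraMap k F ((n : k) * P.lcoef s) *
          P.unif ^ (P.jump s + 1) + (s ((s ^ n) P.unif) - (s ^ n) P.unif -
          algebraMap k F (((1 : ℤ) : k) * 1 * P.lcoef s) * P.unif ^ (P.jump s + 1)) =
        s ((s ^ n) P.unif) - P.unif - algebraMap k F (((n + 1 : ℕ) : k) * P.lcoef s) *
          P.unif ^ (P.jump s + 1) := by
      have h8 : (((n + 1 : ℕ) : k) * P.lcoef s) =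
          (n : k) * P.lcoef s + ((1 : ℤ) : k) * 1 * P.lcoef s := by
        push_cast
        ring
      rw [h8, map_add]
      ring
    rwa [h7] at h5

/-- QF7: cubes and wild elements -/
theorem QF7 (hQF4 : QF4_stmt) (hQF5 : QF5_stmt) : QF7_stmt := by
  intro k F _ _ _ _ _ hF P s hs h1 hj
  refine ⟨QF7_step hQF4 hQF5 k F hF P s hs h1 hj, ?_⟩
  rintro ⟨m, hm, hsm⟩
  obtain ⟨n, m', hm', hmm⟩ := Nat.exists_eq_pow_mul_and_not_dvd hm.ne' 3 (by norm_num)
  refine ⟨n, ?_⟩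
  by_contra hne
  have h2 : s ^ (3 ^ n) ≠ 1 ∧ 1 ≤ P.jump (s ^ (3 ^ n)) :=
    (QF7_iter hQF4 hQF5 k F hF P s hs h1 hj n).resolve_left hne
  set s' : F ≃ₐ[k] F := s ^ (3 ^ n) with hs'
  have hs'P : s' • P = P := QF7_fix hs _
  have h3 := QF7_lin hQF4 k F hF P s' hs'P h2.1 h2.2 m'
  have h4 : s' ^ m' = 1 := by
    rw [hs', ← pow_mul, ← hmm, hsm]
  obtain ⟨ha, -, -⟩ := hQF4 k F hF P s' hs'P h2.1 h2.2
  rw [h4] at h3
  have h5 : (1 : F ≃ₐ[k] F) P.unif - P.unif = 0 := by simp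
  rw [h5, zero_sub] at h3
  have hu := P.unif_spec
  have hm0 : (m' : k) ≠ 0 := by
    intro h
    exact hm' ((CharP.cast_eq_zero_iff k 3 m').mp h)
  have hc : algebraMap k F ((m' : k) * P.lcoef s') ≠ 0 := by
    rw [map_ne_zero]
    exact mul_ne_zero hm0 ha
  have hx : algebraMap k F ((m' : k) * P.lcoef s') * P.unif ^ (P.jump s' + 1) ≠ 0 :=
    mul_ne_zero hc (pow_ne_zero _ hu.1)
  have h6 := h3.le (neg_ne_zero.mpr hx)
  rw [P.ord_neg, P.ord_mul _ _ hc (pow_ne_zero _ hu.1), P.ord_const _ (mul_ne_zero hm0 ha),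
    P.ord_pow hu.1, hu.2] at h6
  push_cast at h6
  omega

end Pool.Agent.helper53.AU
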